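import Pool.Agent.H34.GC.C

/-!
Module A of the GC project (MP_684e05_nt): residue classes of `2 m` modulo `s + 1`.
-/

set_option autoImplicit false

open Finset Pool.Agent.H23.GW Pool.Agent.H23.GC
open scoped Classical Nat

namespace Pool.Agent.H34.GC

section

variable {ι : Type} [Fintype ι]

lemma ell_le_nrm (c : ι → ℤ) : ell c ≤ nrm c := by
  rw [nrm_sp, ← card_sp, Finset.card_eq_sum_ones]
  apply Finset.sum_le_sum
  intro i hi
  rw [mem_sp] at hi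
  omega

lemma ell_le_of_mem {n : ℕ} {c : ι → ℤ} (h : c ∈ Vn ι n) : ell c ≤ n := by
  rw [mem_Vn] at h
  rw [← h]
  exact ell_le_nrm c

end

theorem T_A_holds (hY : T_Y) (hC : T_C) : T_A := by
  intro s hs
  obtain ⟨CY, hY⟩ := hY s hs
  obtain ⟨Ca, hCa⟩ := hC.1 s (by omega)
  obtain ⟨Cc, hCc⟩ := hC.2.2 s (s - 1)
  set K : ℝ := s * CY + (s ! : ℝ) * (s + 1) * (s * Cc) + (s + 1) * Ca with hK
  refine ⟨⌈K⌉₊ + 1, ?_⟩
  intro ι _ G _ _ ev hpc hodd hm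
  by_contra hne
  push Not at hne
  set m := Fintype.card ι with hmdef
  have hm1 : 1 ≤ m := by omega
  set j := (2 * m) % (s + 1) with hj
  set q := (2 * m) / (s + 1) with hq
  have hjs : j < s + 1 := Nat.mod_lt _ (by omega)
  have hdiv : 2 * m = (s + 1) * q + j := (Nat.div_add_mod _ _).symm
  obtain ⟨hY1, hY2⟩ := hY ι G ev hpc hodd hm1
  -- the integer function `y`
  set y : (ι → ℤ) → ℤ := fun d => ((s : ℤ) + 1) * nb s ev d - 2 * m with hy
  have hterm : ∀ d : ι → ℤ, 0 ≤ y d ^ 2 + (2 * (j : ℤ) - s - 1) * y d - j * (s + 1 - j) := by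
    intro d
    have h1 : y d = ((s : ℤ) + 1) * ((nb s ev d : ℤ) - q) - j := by
      have : (2 * (m : ℤ)) = (s + 1) * q + j := by exact_mod_cast hdiv
      simp only [hy]
      rw [this]
      ring
    set k : ℤ := (nb s ev d : ℤ) - q with hk
    have h2 : y d ^ 2 + (2 * (j : ℤ) - s - 1) * y d - j * (s + 1 - j) =
        ((s : ℤ) + 1) ^ 2 * (k * (k - 1)) := by
      rw [h1]
      ring
    rw [h2]
    apply mul_nonneg (by positivity)
    rcases le_or_gt k 0 with h | h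
    · nlinarith
    · have : 1 ≤ k := h
      nlinarith
  have hsum : 0 ≤ ∑ d ∈ Vn ι s, (y d ^ 2 + (2 * (j : ℤ) - s - 1) * y d - j * (s + 1 - j)) :=
    Finset.sum_nonneg fun d _ => hterm d
  have hsum2 : 0 ≤ ∑ d ∈ Vn ι s, y d ^ 2 + (2 * (j : ℤ) - s - 1) * ∑ d ∈ Vn ι s, y d -
      (j * (s + 1 - j)) * #(Vn ι s) := by
    have : ∑ d ∈ Vn ι s, (y d ^ 2 + (2 * (j : ℤ) - s - 1) * y d - j * (s + 1 - j)) =
        ∑ d ∈ Vn ι s, y d ^ 2 + (2 * (j : ℤ) - s - 1) * ∑ d ∈ Vn ι s, y d -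
      (j * (s + 1 - j)) * #(Vn ι s) := by
      rw [Finset.sum_sub_distrib, Finset.sum_add_distrib, Finset.mul_sum, Finset.sum_const]
      simp only [nsmul_eq_mul]
      ring
    rw [← this]
    exact hsum
  -- real numbers
  have hM : (0 : ℝ) < (m : ℝ) ^ (s - 1) := by
    have : (0 : ℝ) < m := by exact_mod_cast hm1
    positivity
  set M : ℝ := (m : ℝ) ^ (s - 1) with hMdef
  have hP : (2 * (m : ℝ)) ^ s = 2 ^ s * m * M := by
    rw [mul_pow, hMdef, mul_assoc]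
    congr 1
    rw [mul_comm, ← pow_succ]
    congr 1
    omega
  set P : ℝ := (2 * (m : ℝ)) ^ s with hPdef
  set S2 : ℝ := ((∑ d ∈ Vn ι s, y d ^ 2 : ℤ) : ℝ) with hS2
  set S1 : ℝ := ((∑ d ∈ Vn ι s, y d : ℤ) : ℝ) with hS1
  have e2 : ∑ d ∈ Vn ι s, (((s : ℝ) + 1) * nb s ev d - 2 * m) ^ 2 = S2 := by
    rw [hS2]
    push_cast
    apply Finset.sum_congr rfl
    intro d _
    simp only [hy]
    push_cast
    ring
  rw [e2] at hY2
  have f1 : ((s - 1)! : ℝ) * S2 ≤ P + CY * M := by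
    have := (abs_le.1 hY2).2
    linarith
  have f2 : 0 ≤ S1 := by
    rw [hS1, hY1]
    have : 0 ≤ ∑ d ∈ Vn ι s, ((s : ℤ) - ell d) := by
      apply Finset.sum_nonneg
      intro d hd
      have := ell_le_of_mem hd
      omega
    exact_mod_cast this
  have f3 : S1 ≤ s * (Cc * M) := by
    rw [hS1, hY1]
    have h1 : ∑ d ∈ Vn ι s, ((s : ℤ) - ell d) ≤ ∑ d ∈ Vn ι s, (if ell d ≤ s - 1 then (s : ℤ) else 0) := by
      apply Finset.sum_le_sum
      intro d hd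
      have := ell_le_of_mem hd
      split_ifs <;> omega
    rw [← Finset.sum_filter, Finset.sum_const] at h1
    have h2 : ((∑ d ∈ Vn ι s, ((s : ℤ) - ell d) : ℤ) : ℝ) ≤
        ((#{d ∈ Vn ι s | ell d ≤ s - 1} • (s : ℤ) : ℤ) : ℝ) := by exact_mod_cast h1
    refine h2.trans ?_
    have h3 := hCc ι hm1
    rw [nsmul_eq_mul]
    push_cast
    rw [mul_comm]
    exact mul_le_mul_of_nonneg_left h3 (Nat.cast_nonneg s)
  have f4 : P - Ca * M ≤ (s ! : ℝ) * (#(Vn ι s) : ℝ) := by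
    have h1 := (abs_le.1 (hCa ι hm1)).1
    have h2 : (#{c ∈ Vn ι s | ell c = s} : ℝ) ≤ (#(Vn ι s) : ℝ) := by
      exact_mod_cast Finset.card_le_card (Finset.filter_subset _ _)
    have h3 := mul_le_mul_of_nonneg_left h2 (Nat.cast_nonneg (s !) : (0 : ℝ) ≤ (s ! : ℝ))
    linarith
  have hN : (0 : ℝ) ≤ (#(Vn ι s) : ℝ) := Nat.cast_nonneg _
  have hf : (0 : ℝ) < (s ! : ℝ) := by exact_mod_cast Nat.factorial_pos s
  have f5 : 0 ≤ S2 + (2 * (j : ℝ) - s - 1) * S1 - (j * (s + 1 - j)) * (#(Vn ι s) : ℝ) := by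
    have h : ((0 : ℤ) : ℝ) ≤ ((∑ d ∈ Vn ι s, y d ^ 2 + (2 * (j : ℤ) - s - 1) * ∑ d ∈ Vn ι s, y d -
      (j * (s + 1 - j)) * #(Vn ι s) : ℤ) : ℝ) := Int.cast_le.2 hsum2
    rw [Int.cast_sub, Int.cast_add, Int.cast_mul, Int.cast_mul, ← hS2, ← hS1] at h
    push_cast at h
    exact h
  have hJ : (s : ℝ) + 1 ≤ j * (s + 1 - j) := by
    have h2 : 2 ≤ j := by omega
    have h3 : j ≤ s - 1 := by omega
    have h4 : (2 : ℝ) ≤ j := by exact_mod_cast h2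
    have h5 : (j : ℝ) + 1 ≤ s := by exact_mod_cast (by omega : j + 1 ≤ s)
    have h6 : (3 : ℝ) ≤ s := by exact_mod_cast hs
    nlinarith
  have hfs : (s ! : ℝ) = s * ((s - 1)! : ℝ) := by
    have : s ! = s * (s - 1)! := (Nat.mul_factorial_pred (by omega)).symm
    exact_mod_cast this
  have hs0 : (0 : ℝ) < s := by exact_mod_cast (by omega : 0 < s)
  have hjs' : (j : ℝ) ≤ s := by exact_mod_cast (by omega : j ≤ s)
  have g1 : (s ! : ℝ) * S2 ≤ s * (P + CY * M) := by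
    rw [hfs, mul_assoc]
    exact mul_le_mul_of_nonneg_left f1 hs0.le
  have g2 : (s ! : ℝ) * ((2 * (j : ℝ) - s - 1) * S1) ≤ (s ! : ℝ) * (s + 1) * (s * Cc) * M := by
    have h1 : (2 * (j : ℝ) - s - 1) * S1 ≤ (s + 1) * S1 :=
      mul_le_mul_of_nonneg_right (by linarith) f2
    have h2 : (s + 1) * S1 ≤ (s + 1) * (s * (Cc * M)) :=
      mul_le_mul_of_nonneg_left f3 (by linarith)
    have h3 := mul_le_mul_of_nonneg_left (h1.trans h2) hf.le
    calc _ ≤ _ := h3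
      _ = _ := by ring
  have g3 : (s + 1) * (P - Ca * M) ≤ (s ! : ℝ) * ((j * (s + 1 - j)) * (#(Vn ι s) : ℝ)) := by
    have h1 : (s + 1) * (P - Ca * M) ≤ (s + 1) * ((s ! : ℝ) * (#(Vn ι s) : ℝ)) :=
      mul_le_mul_of_nonneg_left f4 (by linarith)
    have h2 : ((s : ℝ) + 1) * ((s ! : ℝ) * (#(Vn ι s) : ℝ)) ≤
        (j * (s + 1 - j)) * ((s ! : ℝ) * (#(Vn ι s) : ℝ)) :=
      mul_le_mul_of_nonneg_right hJ (mul_nonneg hf.le hN)
    calc _ ≤ _ := h1.trans h2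
      _ = _ := by ring
  have g4 := mul_nonneg hf.le f5
  have g5 : P ≤ K * M := by
    have e : (s ! : ℝ) * (S2 + (2 * (j : ℝ) - s - 1) * S1 - (j * (s + 1 - j)) * (#(Vn ι s) : ℝ)) =
        (s ! : ℝ) * S2 + (s ! : ℝ) * ((2 * (j : ℝ) - s - 1) * S1) -
          (s ! : ℝ) * ((j * (s + 1 - j)) * (#(Vn ι s) : ℝ)) := by ring
    rw [e] at g4
    rw [hK]
    linarith
  rw [hP] at g5
  have g6 : 2 ^ s * (m : ℝ) ≤ K := le_of_mul_le_mul_right g5 hM
  have g7 : (m : ℝ) ≤ 2 ^ s * (m : ℝ) := by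
    have : (1 : ℝ) ≤ 2 ^ s := one_le_pow₀ (by norm_num)
    have h0 : (0 : ℝ) ≤ m := Nat.cast_nonneg m
    nlinarith
  have g8 : (m : ℝ) ≤ (⌈K⌉₊ : ℝ) := g7.trans (g6.trans (Nat.le_ceil K))
  have g9 : m ≤ ⌈K⌉₊ := by exact_mod_cast g8
  omega

end Pool.Agent.H34.GC
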