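import Pool.Agent.H34.GC.A

/-!
Module B of the GC project (MP_684e05_nt): the residue class `0` of `2 m` modulo `s + 1`.
-/

set_option autoImplicit false

open Finset Pool.Agent.H23.GW Pool.Agent.H23.GC
open scoped Classical Nat

namespace Pool.Agent.H34.GC

/-- double counting of pairs in a fibre -/
lemma sum_card_mul_card {α β : Type*} [DecidableEq β] (D : Finset α) (F : α → Finset β)
    (H : α → Finset β) (T : Finset (β × β))
    (hT : ∀ d ∈ D, ∀ c ∈ F d, ∀ c' ∈ H d, (c, c') ∈ T)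
    (hinj : ∀ d ∈ D, ∀ d' ∈ D, ∀ c, c ∈ F d → c ∈ F d' → d = d') :
    ∑ d ∈ D, #(F d) * #(H d) ≤ #T := by
  rw [Finset.sum_congr rfl fun d _ => (Finset.card_product (F d) (H d)).symm]
  rw [← Finset.card_biUnion]
  · apply Finset.card_le_card
    intro p hp
    rw [Finset.mem_biUnion] at hp
    obtain ⟨d, hd, hp⟩ := hp
    rw [Finset.mem_product] at hp
    exact hT d hd p.1 hp.1 p.2 hp.2
  · intro d hd d' hd' hne
    rw [Function.onFun, Finset.disjoint_left]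
    intro p h1 h2
    rw [Finset.mem_product] at h1 h2
    exact hne (hinj d hd d' hd' p.1 h1.1 h2.1)

theorem T_B_holds (hY : T_Y) (hI : T_I) (hX : T_X) (hC : T_C) : T_B := by
  intro s hs
  obtain ⟨CY, hY⟩ := hY s hs
  obtain ⟨CX, hX⟩ := hX s hs
  obtain ⟨Cb, hCb⟩ := hC.2.1 s (by omega)
  obtain ⟨Cc, hCc⟩ := hC.2.2 s (s - 2)
  set K : ℝ := CY + (s - 1) * (2 / s) * (Cb + ((s - 2)! : ℝ) * (s * Cc)) +
    ((s - 1)! : ℝ) * ((s + 1) ^ 2 * CX) with hK
  refine ⟨⌈s * K⌉₊ + 1, ?_⟩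
  intro ι _ G _ _ ev hpc hodd hm
  intro hmod
  set m := Fintype.card ι with hmdef
  have hm1 : 1 ≤ m := by omega
  set q := (2 * m) / (s + 1) with hq
  have hdiv : 2 * m = (s + 1) * q := by
    have := (Nat.div_add_mod (2 * m) (s + 1)).symm
    rw [hmod, add_zero] at this
    exact this
  obtain ⟨hY1, hY2⟩ := hY ι G ev hpc hodd hm1
  obtain ⟨hI1, hI2⟩ := hI ι G s ev hpc (by omega)
  -- the integer functions
  set y : (ι → ℤ) → ℤ := fun d => ((s : ℤ) + 1) * nb s ev d - 2 * m with hy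
  set R : (ι → ℤ) → Finset (ι → ℤ) := fun d => {c ∈ Vn ι (s + 1) | ev c = ev d ∧ ell c = s} with hR
  set R1 : (ι → ℤ) → Finset (ι → ℤ) := fun d => {c ∈ Vn ι (s + 1) | ev c = ev d ∧ ell c ≤ s} with hR1
  set R2 : (ι → ℤ) → Finset (ι → ℤ) := fun d => {c ∈ Vn ι (s + 1) | ev c = ev d ∧ ell c < s} with hR2
  -- `y d = D d - ell d`
  have hyD : ∀ d ∈ Vn ι s, y d =
      ∑ c ∈ Vn ι (s + 1) with ev c = ev d, ((s : ℤ) + 1 - ell c) - ell d := by
    intro d hd
    have h1 := hI1 d hd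
    rw [Finset.sum_sub_distrib, Finset.sum_const, nsmul_eq_mul]
    have h2 : ((∑ c ∈ Vn ι (s + 1) with ev c = ev d, ell c : ℕ) : ℤ) + ell d = 2 * m := by
      exact_mod_cast h1
    rw [Nat.cast_sum] at h2
    simp only [hy, nb]
    rw [← h2]
    ring
  have hDle : ∀ d ∈ Vn ι s, ∑ c ∈ Vn ι (s + 1) with ev c = ev d, ((s : ℤ) + 1 - ell c) ≤
      #(R d) + (s + 1) * #(R2 d) := by
    intro d hd
    have h1 : ∑ c ∈ Vn ι (s + 1) with ev c = ev d, ((s : ℤ) + 1 - ell c) ≤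
        ∑ c ∈ Vn ι (s + 1) with ev c = ev d,
          ((if ell c = s then (1 : ℤ) else 0) + (if ell c < s then ((s : ℤ) + 1) else 0)) := by
      apply Finset.sum_le_sum
      intro c hc
      rw [Finset.mem_filter] at hc
      have := ell_le_of_mem hc.1
      by_cases h : ell c = s
      · rw [if_pos h, if_neg (by omega)]
        omega
      · rw [if_neg h]
        by_cases h' : ell c < s
        · rw [if_pos h']
          omega
        · rw [if_neg h']
          omega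
    refine h1.trans (le_of_eq ?_)
    rw [Finset.sum_add_distrib, ← Finset.sum_filter, ← Finset.sum_filter, Finset.sum_const,
      Finset.sum_const, Finset.filter_filter, Finset.filter_filter]
    simp only [nsmul_eq_mul, mul_one, hR, hR2]
    ring
  have hDle1 : ∀ d ∈ Vn ι s, ∑ c ∈ Vn ι (s + 1) with ev c = ev d, ((s : ℤ) + 1 - ell c) ≤
      (s + 1) * #(R1 d) := by
    intro d hd
    have h1 : ∑ c ∈ Vn ι (s + 1) with ev c = ev d, ((s : ℤ) + 1 - ell c) ≤
        ∑ c ∈ Vn ι (s + 1) with ev c = ev d, (if ell c ≤ s then ((s : ℤ) + 1) else 0) := by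
      apply Finset.sum_le_sum
      intro c hc
      rw [Finset.mem_filter] at hc
      have := ell_le_of_mem hc.1
      split_ifs <;> omega
    refine h1.trans (le_of_eq ?_)
    rw [← Finset.sum_filter, Finset.sum_const, Finset.filter_filter]
    simp only [nsmul_eq_mul, hR1]
    ring
  -- `0 ≤ y`
  have hy0 : ∀ d ∈ Vn ι s, 0 ≤ y d := by
    intro d hd
    have h1 : y d = ((s : ℤ) + 1) * ((nb s ev d : ℤ) - q) := by
      have : (2 * (m : ℤ)) = (s + 1) * q := by exact_mod_cast hdiv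
      simp only [hy]
      rw [this]
      ring
    have h2 : -(s : ℤ) ≤ y d := by
      rw [hyD d hd]
      have h3 := ell_le_of_mem hd
      have h4 : 0 ≤ ∑ c ∈ Vn ι (s + 1) with ev c = ev d, ((s : ℤ) + 1 - ell c) := by
        apply Finset.sum_nonneg
        intro c hc
        rw [Finset.mem_filter] at hc
        have := ell_le_of_mem hc.1
        omega
      omega
    by_contra hneg
    push Not at hneg
    have h5 : (nb s ev d : ℤ) - q < 0 := by
      by_contra h6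
      push Not at h6
      have : 0 ≤ ((s : ℤ) + 1) * ((nb s ev d : ℤ) - q) := by positivity
      omega
    have h7 : (nb s ev d : ℤ) - q ≤ -1 := by omega
    have h8 : ((s : ℤ) + 1) * ((nb s ev d : ℤ) - q) ≤ ((s : ℤ) + 1) * (-1) :=
      mul_le_mul_of_nonneg_left h7 (by positivity)
    omega
  -- `y ≤ ρ + (s + 1) D2`, `y ≤ (s + 1) ρ1`
  have hyle : ∀ d ∈ Vn ι s, y d ≤ #(R d) + (s + 1) * #(R2 d) := by
    intro d hd
    have := hDle d hd
    rw [hyD d hd]
    omega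
  have hyle1 : ∀ d ∈ Vn ι s, y d ≤ (s + 1) * #(R1 d) := by
    intro d hd
    have := hDle1 d hd
    rw [hyD d hd]
    omega
  have hrho : ∀ d ∈ Vn ι s, s * #(R d) ≤ 2 * m := by
    intro d hd
    have h1 := hI1 d hd
    have h2 : ∑ c ∈ R d, ell c ≤ ∑ c ∈ Vn ι (s + 1) with ev c = ev d, ell c := by
      apply Finset.sum_le_sum_of_subset
      intro c hc
      simp only [hR, Finset.mem_filter] at hc
      rw [Finset.mem_filter]
      exact ⟨hc.1, hc.2.1⟩
    have h3 : ∑ c ∈ R d, ell c = s * #(R d) := by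
      rw [Finset.sum_congr rfl (g := fun _ => s)]
      · rw [Finset.sum_const, smul_eq_mul, mul_comm]
      · intro c hc
        simp only [hR, Finset.mem_filter] at hc
        exact hc.2.2
    omega
  -- pairs
  have hpairs : ∑ d ∈ Vn ι s, #(R1 d) * #(R2 d) ≤
      #{q ∈ Vn ι (s + 1) ×ˢ Vn ι (s + 1) | ev q.1 = ev q.2 ∧ ell q.1 ≤ s ∧ ell q.2 < s} := by
    apply sum_card_mul_card
    · intro d hd c hc c' hc'
      simp only [hR1, hR2, Finset.mem_filter] at hc hc'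
      rw [Finset.mem_filter, Finset.mem_product]
      exact ⟨⟨hc.1, hc'.1⟩, hc.2.1.trans hc'.2.1.symm, hc.2.2, hc'.2.2⟩
    · intro d hd d' hd' c hc hc'
      simp only [hR1, Finset.mem_filter] at hc hc'
      exact (hI2 c hc.1).unique ⟨hd, hc.2.1.symm⟩ ⟨hd', hc'.2.1.symm⟩
  -- real numbers
  have hM : (0 : ℝ) < (m : ℝ) ^ (s - 1) := by
    have : (0 : ℝ) < m := by exact_mod_cast hm1
    positivity
  set M : ℝ := (m : ℝ) ^ (s - 1) with hMdef
  have hm0 : (0 : ℝ) < m := by exact_mod_cast hm1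
  have hs0 : (0 : ℝ) < s := by exact_mod_cast (by omega : 0 < s)
  have hP : (2 * (m : ℝ)) ^ s = 2 ^ s * m * M := by
    rw [mul_pow, hMdef, mul_assoc]
    congr 1
    rw [mul_comm, ← pow_succ]
    congr 1
    omega
  set P : ℝ := (2 * (m : ℝ)) ^ s with hPdef
  have e2 : ∑ d ∈ Vn ι s, (((s : ℝ) + 1) * nb s ev d - 2 * m) ^ 2 = ∑ d ∈ Vn ι s, (y d : ℝ) ^ 2 := by
    apply Finset.sum_congr rfl
    intro d _
    simp only [hy]
    push_cast
    ring
  rw [e2] at hY2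
  set S2 : ℝ := ∑ d ∈ Vn ι s, (y d : ℝ) ^ 2 with hS2
  set S1 : ℝ := ∑ d ∈ Vn ι s, (y d : ℝ) with hS1
  have f1 : P - CY * M ≤ ((s - 1)! : ℝ) * S2 := by
    have := (abs_le.1 hY2).1
    linarith
  have f3 : S1 ≤ #{d ∈ Vn ι s | ell d = s - 1} + s * #{d ∈ Vn ι s | ell d ≤ s - 2} := by
    have h0 : S1 = ((∑ d ∈ Vn ι s, y d : ℤ) : ℝ) := by
      rw [hS1]
      push_cast
      rfl
    rw [h0, hY1]
    have h1 : ∑ d ∈ Vn ι s, ((s : ℤ) - ell d) ≤ ∑ d ∈ Vn ι s, ((if ell d = s - 1 then (1 : ℤ) else 0) +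
        (if ell d ≤ s - 2 then (s : ℤ) else 0)) := by
      apply Finset.sum_le_sum
      intro d hd
      have := ell_le_of_mem hd
      by_cases h : ell d = s - 1
      · rw [if_pos h, if_neg (by omega)]
        omega
      · rw [if_neg h]
        split_ifs <;> omega
    rw [Finset.sum_add_distrib, ← Finset.sum_filter, ← Finset.sum_filter, Finset.sum_const,
      Finset.sum_const] at h1
    simp only [nsmul_eq_mul, mul_one] at h1
    have h2 : ((∑ d ∈ Vn ι s, ((s : ℤ) - ell d) : ℤ) : ℝ) ≤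
        ((#{d ∈ Vn ι s | ell d = s - 1} + #{d ∈ Vn ι s | ell d ≤ s - 2} * (s : ℤ) : ℤ) : ℝ) :=
      Int.cast_le.2 h1
    refine h2.trans (le_of_eq ?_)
    push_cast
    ring
  have hf2 : (0 : ℝ) < ((s - 2)! : ℝ) := by exact_mod_cast Nat.factorial_pos _
  have hf1 : (0 : ℝ) < ((s - 1)! : ℝ) := by exact_mod_cast Nat.factorial_pos _
  have hf12 : ((s - 1)! : ℝ) = (s - 1) * ((s - 2)! : ℝ) := by
    have h1 : (s - 1)! = (s - 1) * (s - 1 - 1)! := (Nat.mul_factorial_pred (by omega)).symm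
    have h2 : s - 1 - 1 = s - 2 := by omega
    rw [h2] at h1
    have h3 : ((s - 1 : ℕ) : ℝ) = (s : ℝ) - 1 := by
      rw [Nat.cast_sub (by omega)]
      simp
    rw [← h3]
    exact_mod_cast h1
  have hM2 : (m : ℝ) ^ (s - 2) * m = M := by
    rw [hMdef, ← pow_succ]
    congr 1
    omega
  -- `Σ y` bound
  have f4 : ((s - 2)! : ℝ) * (S1 * m) ≤ P / 2 + (Cb + ((s - 2)! : ℝ) * (s * Cc)) * M := by
    have h1 := (abs_le.1 (hCb ι hm1)).2
    have h2 := hCc ι hm1
    have h3 : ((s - 2)! : ℝ) * S1 ≤ (2 * (m : ℝ)) ^ (s - 1) + Cb * (m : ℝ) ^ (s - 2) +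
        ((s - 2)! : ℝ) * (s * (Cc * (m : ℝ) ^ (s - 2))) := by
      have h4 := mul_le_mul_of_nonneg_left f3 hf2.le
      have h5 : ((s - 2)! : ℝ) * (s * (#{d ∈ Vn ι s | ell d ≤ s - 2} : ℝ)) ≤
          ((s - 2)! : ℝ) * (s * (Cc * (m : ℝ) ^ (s - 2))) :=
        mul_le_mul_of_nonneg_left (mul_le_mul_of_nonneg_left h2 hs0.le) hf2.le
      rw [mul_add] at h4
      linarith
    have h6 := mul_le_mul_of_nonneg_right h3 hm0.le
    have h7 : (2 * (m : ℝ)) ^ (s - 1) * m = P / 2 := by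
      have : P = (2 * (m : ℝ)) ^ (s - 1) * (2 * m) := by
        rw [hPdef, ← pow_succ]
        congr 1
        omega
      rw [this]
      ring
    calc ((s - 2)! : ℝ) * (S1 * m) = ((s - 2)! : ℝ) * S1 * m := by ring
      _ ≤ _ := h6
      _ = (2 * (m : ℝ)) ^ (s - 1) * m + (Cb + ((s - 2)! : ℝ) * (s * Cc)) * ((m : ℝ) ^ (s - 2) * m) := by
          ring
      _ = _ := by rw [h7, hM2]
  -- `Σ y²` bound
  have f5 : S2 ≤ (2 * m / s) * S1 + (s + 1) ^ 2 * (CX * M) := by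
    have h1 : S2 ≤ ∑ d ∈ Vn ι s, ((2 * m / s) * (y d : ℝ) +
        (s + 1) ^ 2 * ((#(R1 d) * #(R2 d) : ℕ) : ℝ)) := by
      apply Finset.sum_le_sum
      intro d hd
      have a0 : (0 : ℝ) ≤ y d := by exact_mod_cast hy0 d hd
      have a1 : (y d : ℝ) ≤ #(R d) + (s + 1) * #(R2 d) := by exact_mod_cast hyle d hd
      have a2 : (y d : ℝ) ≤ (s + 1) * #(R1 d) := by exact_mod_cast hyle1 d hd
      have a3 : (s : ℝ) * #(R d) ≤ 2 * m := by exact_mod_cast hrho d hd
      have a4 : (#(R d) : ℝ) ≤ 2 * m / s := by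
        rw [le_div_iff₀ hs0]
        linarith
      have b2 : (0 : ℝ) ≤ #(R2 d) := Nat.cast_nonneg _
      have a5 : (y d : ℝ) ^ 2 ≤ y d * (2 * m / s) + y d * ((s + 1) * #(R2 d)) := by
        have := mul_le_mul_of_nonneg_left (a1.trans (add_le_add a4 le_rfl)) a0
        rw [mul_add] at this
        rw [sq]
        exact this
      have a6 : (y d : ℝ) * ((s + 1) * #(R2 d)) ≤ ((s + 1) * #(R1 d)) * ((s + 1) * #(R2 d)) :=
        mul_le_mul_of_nonneg_right a2
          (mul_nonneg (by have := hs0.le; linarith) b2)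
      push_cast
      nlinarith
    refine h1.trans ?_
    rw [Finset.sum_add_distrib, ← Finset.mul_sum, ← Finset.mul_sum, ← hS1]
    have h2 : ∑ d ∈ Vn ι s, ((#(R1 d) * #(R2 d) : ℕ) : ℝ) ≤ CX * M := by
      rw [← Nat.cast_sum]
      have h3 : ((∑ d ∈ Vn ι s, #(R1 d) * #(R2 d) : ℕ) : ℝ) ≤
          (#{q ∈ Vn ι (s + 1) ×ˢ Vn ι (s + 1) | ev q.1 = ev q.2 ∧ ell q.1 ≤ s ∧ ell q.2 < s} : ℝ) := by
        exact_mod_cast hpairs
      exact h3.trans (hX ι G ev hpc hodd hm1).2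
    have h3 := mul_le_mul_of_nonneg_left h2 (sq_nonneg ((s : ℝ) + 1))
    linarith
  have hs1 : (0 : ℝ) ≤ (s : ℝ) - 1 := by
    have : (3 : ℝ) ≤ s := by exact_mod_cast hs
    linarith
  have g1 : ((s - 1)! : ℝ) * S2 ≤ (s - 1) * (2 / s) * (((s - 2)! : ℝ) * (S1 * m)) +
      ((s - 1)! : ℝ) * ((s + 1) ^ 2 * (CX * M)) := by
    have h1 := mul_le_mul_of_nonneg_left f5 hf1.le
    refine h1.trans (le_of_eq ?_)
    rw [mul_add]
    congr 1
    rw [hf12]
    field_simp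
  have g2 : (s - 1) * (2 / s) * (((s - 2)! : ℝ) * (S1 * m)) ≤
      (s - 1) * (2 / s) * (P / 2 + (Cb + ((s - 2)! : ℝ) * (s * Cc)) * M) :=
    mul_le_mul_of_nonneg_left f4 (mul_nonneg hs1 (div_nonneg (by norm_num) hs0.le))
  have g3 : (s - 1) * (2 / s) * (P / 2 + (Cb + ((s - 2)! : ℝ) * (s * Cc)) * M) =
      P - P / s + (s - 1) * (2 / s) * (Cb + ((s - 2)! : ℝ) * (s * Cc)) * M := by
    field_simp
  have g4 : P / s ≤ K * M := by
    have e : K * M = CY * M + (s - 1) * (2 / s) * (Cb + ((s - 2)! : ℝ) * (s * Cc)) * M +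
        ((s - 1)! : ℝ) * ((s + 1) ^ 2 * (CX * M)) := by
      rw [hK]
      ring
    rw [e]
    linarith
  have g5 : P ≤ s * K * M := by
    rw [div_le_iff₀ hs0] at g4
    linarith
  rw [hP] at g5
  have g6 : 2 ^ s * (m : ℝ) ≤ s * K := le_of_mul_le_mul_right g5 hM
  have g7 : (m : ℝ) ≤ 2 ^ s * (m : ℝ) := by
    have : (1 : ℝ) ≤ 2 ^ s := one_le_pow₀ (by norm_num)
    nlinarith
  have g8 : (m : ℝ) ≤ (⌈s * K⌉₊ : ℝ) := g7.trans (g6.trans (Nat.le_ceil _))
  have g9 : m ≤ ⌈s * K⌉₊ := by exact_mod_cast g8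
  omega

end Pool.Agent.H34.GC
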