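import Pool.Agent.H23.GC.Targets

/-!
Module C of the GC project (MP_684e05_nt): counting vectors.
-/

set_option autoImplicit false

open Finset Pool.Agent.H23.GW Pool.Agent.H23.GC
open scoped Classical Nat

namespace Pool.Agent.H34.GC

section

variable {ι : Type} [Fintype ι]

lemma natAbs_le_nrm (c : ι → ℤ) (i : ι) : (c i).natAbs ≤ nrm c :=
  Finset.single_le_sum (f := fun i => (c i).natAbs) (fun i _ => Nat.zero_le _) (Finset.mem_univ i)

lemma mem_Vn (n : ℕ) (c : ι → ℤ) : c ∈ Vn ι n ↔ nrm c = n := by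
  unfold Vn
  rw [Finset.mem_filter, Fintype.mem_piFinset]
  constructor
  · exact fun h => h.2
  · intro h
    refine ⟨fun i => ?_, h⟩
    have := natAbs_le_nrm c i
    rw [Finset.mem_Icc]
    omega

/-- the support -/
noncomputable def sp (c : ι → ℤ) : Finset ι := {i | c i ≠ 0}

lemma mem_sp (c : ι → ℤ) (i : ι) : i ∈ sp c ↔ c i ≠ 0 := by
  simp [sp]

lemma card_sp (c : ι → ℤ) : #(sp c) = ell c := rfl

lemma nrm_sp (c : ι → ℤ) : nrm c = ∑ i ∈ sp c, (c i).natAbs := by
  unfold nrm
  symm
  apply Finset.sum_subset (Finset.subset_univ _)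
  intro i _ hi
  rw [mem_sp] at hi
  simp only [ne_eq, not_not] at hi
  rw [hi]
  rfl

/-! ### vectors with entries in {-1, 0, 1} -/

/-- the sign vectors on `S` -/
noncomputable def box1 (S : Finset ι) : Finset (ι → ℤ) :=
  Fintype.piFinset fun i => if i ∈ S then ({1, -1} : Finset ℤ) else {0}

lemma mem_box1 (S : Finset ι) (c : ι → ℤ) :
    c ∈ box1 S ↔ ∀ i, (i ∈ S → (c i).natAbs = 1) ∧ (i ∉ S → c i = 0) := by
  unfold box1
  rw [Fintype.mem_piFinset]
  apply forall_congr'
  intro i
  by_cases h : i ∈ S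
  · simp only [h, if_true, Finset.mem_insert, Finset.mem_singleton, true_imp_iff, not_true, false_imp_iff, and_true]
    omega
  · simp [h]

lemma card_box1 (S : Finset ι) : #(box1 S) = 2 ^ #S := by
  unfold box1
  rw [Fintype.card_piFinset]
  have : ∀ i : ι, #(if i ∈ S then ({1, -1} : Finset ℤ) else {0}) = if i ∈ S then 2 else 1 := by
    intro i
    split_ifs <;> rfl
  rw [Finset.prod_congr rfl fun i _ => this i, Finset.prod_ite]
  simp

lemma sp_of_box1 {S : Finset ι} {c : ι → ℤ} (h : c ∈ box1 S) : sp c = S := by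
  rw [mem_box1] at h
  ext i
  rw [mem_sp]
  constructor
  · intro h1
    by_contra h2
    exact h1 ((h i).2 h2)
  · intro h1 h2
    have := (h i).1 h1
    rw [h2] at this
    simp at this

lemma card_ell_eq (n : ℕ) : #{c ∈ Vn ι n | ell c = n} = (Fintype.card ι).choose n * 2 ^ n := by
  have h : ({c ∈ Vn ι n | ell c = n} : Finset (ι → ℤ)) = (powersetCard n (univ : Finset ι)).biUnion box1 := by
    ext c
    rw [Finset.mem_filter, mem_Vn, Finset.mem_biUnion]
    constructor
    · rintro ⟨h1, h2⟩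
      refine ⟨sp c, ?_, ?_⟩
      · rw [Finset.mem_powersetCard]
        exact ⟨Finset.subset_univ _, h2⟩
      · rw [mem_box1]
        have h3 : ∑ i ∈ sp c, (c i).natAbs = ∑ i ∈ sp c, 1 := by
          rw [← nrm_sp, h1, Finset.sum_const, smul_eq_mul, mul_one, card_sp, h2]
        have h4 : ∀ i ∈ sp c, 1 ≤ (c i).natAbs := by
          intro i hi
          rw [mem_sp] at hi
          omega
        have h5 := (Finset.sum_eq_sum_iff_of_le h4).1 h3.symm
        intro i
        refine ⟨fun hi => (h5 i hi).symm, fun hi => ?_⟩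
        rw [mem_sp] at hi
        simpa using hi
    · rintro ⟨S, hS, hc⟩
      rw [Finset.mem_powersetCard] at hS
      have h1 := sp_of_box1 hc
      rw [mem_box1] at hc
      constructor
      · rw [nrm_sp, h1, Finset.sum_congr rfl fun i hi => (hc i).1 hi]
        simp [hS.2]
      · rw [← card_sp, h1, hS.2]
  rw [h, Finset.card_biUnion]
  · rw [Finset.sum_congr rfl (g := fun _ => 2 ^ n)]
    · rw [Finset.sum_const, Finset.card_powersetCard, smul_eq_mul, Finset.card_univ]
    · intro S hS
      rw [card_box1, (Finset.mem_powersetCard.1 hS).2]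
  · intro S _ T _ hST
    rw [Function.onFun, Finset.disjoint_left]
    intro c h1 h2
    exact hST ((sp_of_box1 h1).symm.trans (sp_of_box1 h2))

/-! ### one entry of size two -/

/-- the vectors with entries `±1` on `S`, except `±2` in `j` -/
noncomputable def box2 (S : Finset ι) (j : ι) : Finset (ι → ℤ) :=
  Fintype.piFinset fun i => if i = j then ({2, -2} : Finset ℤ) else if i ∈ S then {1, -1} else {0}

lemma mem_box2 (S : Finset ι) (j : ι) (c : ι → ℤ) :
    c ∈ box2 S j ↔ (c j).natAbs = 2 ∧ ∀ i, i ≠ j → (i ∈ S → (c i).natAbs = 1) ∧ (i ∉ S → c i = 0) := by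
  unfold box2
  rw [Fintype.mem_piFinset]
  constructor
  · intro h
    constructor
    · have := h j
      simp only [if_true, Finset.mem_insert, Finset.mem_singleton] at this
      omega
    · intro i hi
      have h1 := h i
      rw [if_neg hi] at h1
      by_cases h2 : i ∈ S
      · simp only [h2, if_true, Finset.mem_insert, Finset.mem_singleton] at h1
        refine ⟨fun _ => by omega, fun h3 => absurd h2 h3⟩
      · simp only [h2, if_false, Finset.mem_singleton] at h1
        exact ⟨fun h3 => absurd h3 h2, fun _ => h1⟩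
  · rintro ⟨h1, h2⟩ i
    by_cases hi : i = j
    · subst hi
      simp only [if_true, Finset.mem_insert, Finset.mem_singleton]
      omega
    · rw [if_neg hi]
      by_cases h3 : i ∈ S
      · have := (h2 i hi).1 h3
        simp only [h3, if_true, Finset.mem_insert, Finset.mem_singleton]
        omega
      · simp only [h3, if_false, Finset.mem_singleton]
        exact (h2 i hi).2 h3

lemma card_box2 (S : Finset ι) (j : ι) (hj : j ∈ S) : #(box2 S j) = 2 ^ #S := by
  unfold box2
  rw [Fintype.card_piFinset]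
  have : ∀ i : ι, #(if i = j then ({2, -2} : Finset ℤ) else if i ∈ S then {1, -1} else {0}) =
      if i ∈ S then 2 else 1 := by
    intro i
    by_cases h : i = j
    · subst h
      simp only [if_true, hj]
      rfl
    · rw [if_neg h]
      split_ifs <;> rfl
  rw [Finset.prod_congr rfl fun i _ => this i, Finset.prod_ite]
  simp

lemma sp_of_box2 {S : Finset ι} {j : ι} (hj : j ∈ S) {c : ι → ℤ} (h : c ∈ box2 S j) : sp c = S := by
  rw [mem_box2] at h
  ext i
  rw [mem_sp]
  by_cases hi : i = j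
  · subst hi
    refine ⟨fun _ => hj, fun _ => ?_⟩
    have := h.1
    omega
  constructor
  · intro h1
    by_contra h2
    exact h1 ((h.2 i hi).2 h2)
  · intro h1 h2
    have := (h.2 i hi).1 h1
    rw [h2] at this
    simp at this

lemma card_ell_eq_sub (n : ℕ) (hn : 2 ≤ n) :
    #{c ∈ Vn ι n | ell c = n - 1} = (Fintype.card ι).choose (n - 1) * ((n - 1) * 2 ^ (n - 1)) := by
  have h : ({c ∈ Vn ι n | ell c = n - 1} : Finset (ι → ℤ)) =
      ((powersetCard (n - 1) (univ : Finset ι)).sigma fun S => S).biUnion fun p => box2 p.1 p.2 := by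
    ext c
    rw [Finset.mem_filter, mem_Vn, Finset.mem_biUnion]
    constructor
    · rintro ⟨h1, h2⟩
      have h4 : ∀ i ∈ sp c, 1 ≤ (c i).natAbs := by
        intro i hi
        rw [mem_sp] at hi
        omega
      have h3 : ∃ j ∈ sp c, 2 ≤ (c j).natAbs := by
        by_contra hne
        push Not at hne
        have : ∑ i ∈ sp c, (c i).natAbs = ∑ i ∈ sp c, 1 := by
          apply Finset.sum_congr rfl
          intro i hi
          have := h4 i hi
          have := hne i hi
          omega
        rw [← nrm_sp, h1, Finset.sum_const, smul_eq_mul, mul_one, card_sp, h2] at this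
        omega
      obtain ⟨j, hj, hj2⟩ := h3
      have h5 := Finset.add_sum_erase (sp c) (fun i => (c i).natAbs) hj
      rw [← nrm_sp, h1] at h5
      have h6 : ∑ i ∈ (sp c).erase j, 1 ≤ ∑ i ∈ (sp c).erase j, (c i).natAbs :=
        Finset.sum_le_sum fun i hi => h4 i (Finset.mem_of_mem_erase hi)
      have h7 : ∑ i ∈ (sp c).erase j, 1 = n - 2 := by
        rw [Finset.sum_const, smul_eq_mul, mul_one, Finset.card_erase_of_mem hj, card_sp, h2]
        omega
      have h8 : ∑ i ∈ (sp c).erase j, 1 = ∑ i ∈ (sp c).erase j, (c i).natAbs := by omega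
      have h9 := (Finset.sum_eq_sum_iff_of_le fun i hi => h4 i (Finset.mem_of_mem_erase hi)).1 h8
      refine ⟨⟨sp c, j⟩, ?_, ?_⟩
      · rw [Finset.mem_sigma, Finset.mem_powersetCard]
        exact ⟨⟨Finset.subset_univ _, h2⟩, hj⟩
      · show c ∈ box2 (sp c) j
        rw [mem_box2]
        refine ⟨by omega, ?_⟩
        intro i hij
        refine ⟨fun hi => (h9 i (Finset.mem_erase.2 ⟨hij, hi⟩)).symm, fun hi => ?_⟩
        simp only [mem_sp] at hi
        simpa using hi
    · rintro ⟨⟨S, j⟩, hS, hc⟩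
      rw [Finset.mem_sigma, Finset.mem_powersetCard] at hS
      simp only at hS hc
      have h1 := sp_of_box2 hS.2 hc
      rw [mem_box2] at hc
      constructor
      · rw [nrm_sp, h1, ← Finset.add_sum_erase S (fun i => (c i).natAbs) hS.2]
        rw [hc.1, Finset.sum_congr rfl (g := fun _ => 1)]
        · rw [Finset.sum_const, smul_eq_mul, mul_one, Finset.card_erase_of_mem hS.2, hS.1.2]
          omega
        · intro i hi
          rw [Finset.mem_erase] at hi
          exact (hc.2 i hi.1).1 hi.2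
      · rw [← card_sp, h1, hS.1.2]
  rw [h, Finset.card_biUnion]
  · rw [Finset.sum_congr rfl (g := fun _ => 2 ^ (n - 1))]
    · rw [Finset.sum_const, Finset.card_sigma, smul_eq_mul]
      rw [Finset.sum_congr rfl (g := fun _ => n - 1)]
      · rw [Finset.sum_const, Finset.card_powersetCard, smul_eq_mul, Finset.card_univ, mul_assoc]
      · intro S hS
        exact (Finset.mem_powersetCard.1 hS).2
    · rintro ⟨S, j⟩ hS
      rw [Finset.mem_sigma, Finset.mem_powersetCard] at hS
      simp only at hS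
      rw [card_box2 S j hS.2, hS.1.2]
  · rintro ⟨S, j⟩ hS ⟨T, k⟩ hT hST
    rw [Finset.mem_coe, Finset.mem_sigma] at hS hT
    rw [Function.onFun, Finset.disjoint_left]
    intro c h1 h2
    apply hST
    have h3 : S = T := (sp_of_box2 hS.2 h1).symm.trans (sp_of_box2 hT.2 h2)
    subst h3
    have h4 : j = k := by
      by_contra hne
      rw [mem_box2] at h1 h2
      have h5 := (h2.2 j hne).1 hS.2
      have h6 := h1.1
      simp only at h5 h6
      omega
    rw [h4]

/-! ### few nonzero entries -/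

lemma card_ell_le (n k : ℕ) (hι : 1 ≤ Fintype.card ι) :
    #{c ∈ Vn ι n | ell c ≤ k} ≤ (k + 1) * ((Fintype.card ι) ^ k * (2 * n + 1) ^ k) := by
  have h : ({c ∈ Vn ι n | ell c ≤ k} : Finset (ι → ℤ)) ⊆
      (range (k + 1)).biUnion fun j => (powersetCard j (univ : Finset ι)).biUnion fun S =>
        Fintype.piFinset fun i => if i ∈ S then Icc (-(n : ℤ)) n else {0} := by
    intro c hc
    rw [Finset.mem_filter, mem_Vn] at hc
    rw [Finset.mem_biUnion]
    refine ⟨ell c, by rw [Finset.mem_range]; omega, ?_⟩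
    rw [Finset.mem_biUnion]
    refine ⟨sp c, ?_, ?_⟩
    · rw [Finset.mem_powersetCard]
      exact ⟨Finset.subset_univ _, rfl⟩
    · rw [Fintype.mem_piFinset]
      intro i
      by_cases hi : i ∈ sp c
      · rw [if_pos hi, Finset.mem_Icc]
        have := natAbs_le_nrm c i
        omega
      · rw [if_neg hi, Finset.mem_singleton]
        rw [mem_sp] at hi
        simpa using hi
  refine (Finset.card_le_card h).trans ?_
  refine Finset.card_biUnion_le.trans ?_
  have h1 : ∀ j ∈ range (k + 1), #((powersetCard j (univ : Finset ι)).biUnion fun S =>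
        Fintype.piFinset fun i => if i ∈ S then Icc (-(n : ℤ)) n else {0}) ≤
        (Fintype.card ι) ^ k * (2 * n + 1) ^ k := by
    intro j hj
    rw [Finset.mem_range] at hj
    refine Finset.card_biUnion_le.trans ?_
    have h2 : ∀ S ∈ powersetCard j (univ : Finset ι),
        #(Fintype.piFinset fun i => if i ∈ S then Icc (-(n : ℤ)) n else {0}) ≤ (2 * n + 1) ^ k := by
      intro S hS
      rw [Finset.mem_powersetCard] at hS
      rw [Fintype.card_piFinset]
      have : ∀ i : ι, #(if i ∈ S then Icc (-(n : ℤ)) n else {0}) = if i ∈ S then (2 * n + 1) else 1 := by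
        intro i
        split_ifs
        · rw [Int.card_Icc]
          omega
        · rfl
      rw [Finset.prod_congr rfl fun i _ => this i, Finset.prod_ite]
      simp only [Finset.filter_mem_eq_inter, Finset.univ_inter, Finset.prod_const, one_pow, mul_one]
      apply Nat.pow_le_pow_right (by omega)
      omega
    refine (Finset.sum_le_sum h2).trans ?_
    rw [Finset.sum_const, Finset.card_powersetCard, smul_eq_mul, Finset.card_univ]
    apply Nat.mul_le_mul_right
    refine (Nat.choose_le_pow _ _).trans ?_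
    apply Nat.pow_le_pow_right hι
    omega
  refine (Finset.sum_le_sum h1).trans ?_
  rw [Finset.sum_const, Finset.card_range, smul_eq_mul]

end

/-! ### falling factorials -/

lemma desc_bound (m : ℕ) (k : ℕ) :
    ((m : ℝ) ^ k - (m.descFactorial k : ℝ)) * m ≤ (k : ℝ) ^ 2 * (m : ℝ) ^ k := by
  induction k with
  | zero => simp
  | succ k ih =>
    have h1 : ((m : ℝ) - k) ≤ ((m - k : ℕ) : ℝ) := by
      have : m ≤ (m - k) + k := by omega
      have h2 : (m : ℝ) ≤ ((m - k : ℕ) : ℝ) + k := by exact_mod_cast this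
      linarith
    have h0 : (0 : ℝ) ≤ m := Nat.cast_nonneg m
    have hk : (0 : ℝ) ≤ k := Nat.cast_nonneg k
    have hD : (0 : ℝ) ≤ (m.descFactorial k : ℝ) := Nat.cast_nonneg _
    have hD2 : (m.descFactorial k : ℝ) ≤ (m : ℝ) ^ k := by exact_mod_cast Nat.descFactorial_le_pow m k
    have hp : (0 : ℝ) ≤ (m : ℝ) ^ k := by positivity
    rw [Nat.descFactorial_succ, Nat.cast_mul, pow_succ]
    have h3 : ((m : ℝ) - k) * (m.descFactorial k : ℝ) ≤ ((m - k : ℕ) : ℝ) * (m.descFactorial k : ℝ) :=
      mul_le_mul_of_nonneg_right h1 hD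
    have h4 : (m : ℝ) ^ k * m - ((m - k : ℕ) : ℝ) * (m.descFactorial k : ℝ) ≤
        ((k : ℝ) ^ 2 + k) * (m : ℝ) ^ k := by
      nlinarith
    have h5 : ((m : ℝ) ^ k * m - ((m - k : ℕ) : ℝ) * (m.descFactorial k : ℝ)) * m ≤
        (((k : ℝ) ^ 2 + k) * (m : ℝ) ^ k) * m := mul_le_mul_of_nonneg_right h4 h0
    refine h5.trans ?_
    push_cast
    have h6 : 0 ≤ (m : ℝ) ^ k * m := by positivity
    nlinarith

lemma desc_bound' (m : ℕ) (hm : 1 ≤ m) (k : ℕ) (hk : 1 ≤ k) :
    |(2 : ℝ) ^ k * (m.descFactorial k : ℝ) - (2 * m) ^ k| ≤ (2 ^ k * (k : ℝ) ^ 2) * (m : ℝ) ^ (k - 1) := by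
  have h1 := desc_bound m k
  have hm0 : (0 : ℝ) < m := by exact_mod_cast hm
  have hD2 : (m.descFactorial k : ℝ) ≤ (m : ℝ) ^ k := by exact_mod_cast Nat.descFactorial_le_pow m k
  obtain ⟨j, rfl⟩ : ∃ j, k = j + 1 := ⟨k - 1, by omega⟩
  have h2 : (m : ℝ) ^ (j + 1) - (m.descFactorial (j + 1) : ℝ) ≤ ((j + 1 : ℕ) : ℝ) ^ 2 * (m : ℝ) ^ j := by
    have h3 : ((m : ℝ) ^ (j + 1) - (m.descFactorial (j + 1) : ℝ)) * m ≤
        (((j + 1 : ℕ) : ℝ) ^ 2 * (m : ℝ) ^ j) * m := by
      rw [mul_assoc, ← pow_succ]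
      exact h1
    exact le_of_mul_le_mul_right h3 hm0
  rw [mul_pow, ← mul_sub, abs_mul, abs_of_nonneg (by positivity : (0 : ℝ) ≤ 2 ^ (j + 1)), abs_sub_comm,
    abs_of_nonneg (by linarith), mul_assoc]
  apply mul_le_mul_of_nonneg_left h2 (by positivity)

theorem T_C_holds : T_C := by
  refine ⟨?_, ?_, ?_⟩
  · intro n hn
    refine ⟨2 ^ n * (n : ℝ) ^ 2, ?_⟩
    intro ι _ hι
    rw [card_ell_eq]
    have h1 : (n ! : ℝ) * (((Fintype.card ι).choose n * 2 ^ n : ℕ) : ℝ) =
        2 ^ n * ((Fintype.card ι).descFactorial n : ℝ) := by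
      rw [Nat.descFactorial_eq_factorial_mul_choose]
      push_cast
      ring
    rw [h1]
    exact desc_bound' _ hι n hn
  · intro n hn
    refine ⟨2 ^ (n - 1) * ((n - 1 : ℕ) : ℝ) ^ 2, ?_⟩
    intro ι _ hι
    rw [card_ell_eq_sub n hn]
    have h1 : ((n - 2)! : ℝ) * (((Fintype.card ι).choose (n - 1) * ((n - 1) * 2 ^ (n - 1)) : ℕ) : ℝ) =
        2 ^ (n - 1) * ((Fintype.card ι).descFactorial (n - 1) : ℝ) := by
      rw [Nat.descFactorial_eq_factorial_mul_choose]
      obtain ⟨k, rfl⟩ : ∃ k, n = k + 2 := ⟨n - 2, by omega⟩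
      have h2 : k + 2 - 1 = k + 1 := by omega
      have h3 : k + 2 - 2 = k := by omega
      rw [h2, h3, Nat.factorial_succ]
      push_cast
      ring
    rw [h1]
    have h2 : n - 2 = n - 1 - 1 := by omega
    rw [h2]
    exact desc_bound' _ hι (n - 1) (by omega)
  · intro n k
    refine ⟨(k + 1) * (2 * n + 1) ^ k, ?_⟩
    intro ι _ hι
    have h := card_ell_le (ι := ι) n k hι
    have h1 : (#{c ∈ Vn ι n | ell c ≤ k} : ℝ) ≤
        (((k + 1) * ((Fintype.card ι) ^ k * (2 * n + 1) ^ k) : ℕ) : ℝ) := by exact_mod_cast h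
    refine h1.trans (le_of_eq ?_)
    push_cast
    ring

end Pool.Agent.H34.GC
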