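import Pool.Agent.H23.GC.Targets

/-!
Module P of the GC project (MP_684e05_nt): from perfect spanning sets to `PC`.
-/

set_option autoImplicit false

open Finset Pool.Agent.H23.GW Pool.Agent.H23.GC
open scoped Classical Nat

namespace Pool.Agent.H34.GC

theorem T_P_holds : T_P := by
  intro G _ _ A s hs h
  let ev : (A → ℤ) →+ G :=
    { toFun := fun c => ∑ a, c a • (a : G)
      map_zero' := by simp
      map_add' := by
        intro c d
        simp [add_smul, Finset.sum_add_distrib] }
  have hev : ∀ c : A → ℤ, ev c = ∑ a, c a • (a : G) := fun c => rfl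
  have hn : ∀ c : A → ℤ, nrm c ≤ s ↔ ∑ a, |c a| ≤ (s : ℤ) := by
    intro c
    have h0 : ∑ a, |c a| = ((nrm c : ℕ) : ℤ) := by
      unfold nrm
      rw [Nat.cast_sum]
      exact Finset.sum_congr rfl fun i _ => by simp
    rw [h0]
    exact_mod_cast Iff.rfl
  have hpc : PC s ev := by
    intro g
    obtain ⟨c, hc, huc⟩ := h g
    refine ⟨c, ⟨(hn c).2 hc.1, hc.2⟩, ?_⟩
    intro d hd
    exact huc d ⟨(hn d).1 hd.1, hd.2⟩
  refine ⟨⟨ev, hpc⟩, ?_⟩
  by_contra hodd
  rw [Nat.not_odd_iff_even] at hodd
  have : Fact (Nat.Prime 2) := ⟨Nat.prime_two⟩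
  obtain ⟨g, hg⟩ := exists_prime_addOrderOf_dvd_card (G := G) 2 (even_iff_two_dvd.1 hodd)
  have hg2 : g + g = 0 := by
    have := addOrderOf_nsmul_eq_zero g
    rw [hg, two_nsmul] at this
    exact this
  have hg0 : g ≠ 0 := by
    intro h0
    rw [h0, addOrderOf_zero] at hg
    omega
  obtain ⟨c, hc, huc⟩ := hpc g
  have hneg : nrm (-c) ≤ s ∧ ev (-c) = g := by
    constructor
    · have : nrm (-c) = nrm c := by
        unfold nrm
        exact Finset.sum_congr rfl fun i _ => by simp
      rw [this]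
      exact hc.1
    · rw [map_neg, hc.2]
      exact (eq_neg_of_add_eq_zero_left hg2).symm
  have h1 : -c = c := huc _ hneg
  have h2 : c = 0 := by
    funext i
    have := congrFun h1 i
    simp only [Pi.neg_apply] at this
    show c i = 0
    omega
  apply hg0
  rw [← hc.2, h2, map_zero]

end Pool.Agent.H34.GC
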